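import Mathlib
import Pool.Agent.H529R3.Delta
import Pool.Agent.Y717.Reg.Core

set_option autoImplicit false

/-!
# Large monochromatic sets of branches
-/

open Cardinal Set

namespace Pool.Agent.Y717.Reg

open Pool.Agent.H529R3 (Mono exists_first Branch Delta mk_Iio_toType least least_spec least_le
  pow_le_of_lt_least lt_least least_card emb emb_zero emb_one_add one_add_lt Delta_le_of_ne)

universe u

variable {κ μ : Cardinal.{u}}

theorem ctx_least (hμ : ℵ₀ ≤ μ) : Ctx (least μ).ord.ToType μ.ord.ToType := by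
  have hno : NoMaxOrder (least μ).ord.ToType :=
    Cardinal.noMaxOrder (hμ.trans (lt_least μ).le)
  have hseg : ∀ α : (least μ).ord.ToType, (2 : Cardinal.{u}) ^ #(Iio α) ≤ 2 ^ μ := fun α =>
    pow_le_of_lt_least (Cardinal.mk_Iio_toType_ord_lt α)
  refine ⟨?_, ?_, ?_, ?_, ?_, ?_, ?_, ?_⟩
  · rw [Cardinal.mk_ord_toType]; exact hμ
  · intro τ hτ
    rw [Cardinal.mk_ord_toType] at hτ ⊢
    exact pow_le_of_lt_least hτ
  · intro α
    rw [Cardinal.mk_ord_toType]
    exact Cardinal.mk_Iio_toType_ord_lt α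
  · intro τ hτ
    rw [Cardinal.mk_ord_toType] at hτ
    refine ⟨Ordinal.ToType.mk ⟨τ.ord, Cardinal.ord_lt_ord.mpr hτ⟩, ?_⟩
    rw [mk_Iio_toType]
    simp
  · rw [Cardinal.mk_ord_toType, Cardinal.mk_ord_toType]
    exact least_card μ
  · rw [Cardinal.mk_ord_toType, Cardinal.mk_ord_toType]
    exact least_spec μ
  · exact fun α => exists_gt α
  · intro T f hT
    rw [Cardinal.mk_ord_toType] at hT
    by_contra hcon
    push Not at hcon
    have hle : (2 : Cardinal.{u}) ^ least μ ≤ 2 ^ μ := by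
      have h1 : #((least μ).ord.ToType → Bool) ≤ #(∀ i : T, (Iic (f i) → Bool)) := by
        refine Cardinal.mk_le_of_injective
          (f := fun x (i : T) (j : Iic (f i)) => x j.1) ?_
        intro x y hxy
        funext b
        obtain ⟨i, hi⟩ := hcon b
        exact congrFun (congrFun hxy i) ⟨b, hi⟩
      have h2 : ∀ i : T, #(Iic (f i) → Bool) ≤ 2 ^ μ := by
        intro i
        obtain ⟨b, hb⟩ := exists_gt (f i)
        have h3 : #(Iic (f i)) ≤ #(Iio b) :=
          Cardinal.mk_le_mk_of_subset fun j hj => lt_of_le_of_lt hj hb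
        have h4 : #(Iic (f i) → Bool) = 2 ^ #(Iic (f i)) := by simp
        rw [h4]
        exact (Cardinal.power_le_power_left two_ne_zero h3).trans (hseg b)
      have h3 : #(∀ i : T, (Iic (f i) → Bool)) ≤ (2 ^ μ) ^ #T := by
        rw [Cardinal.mk_pi]
        calc Cardinal.prod (fun i : T => #(Iic (f i) → Bool))
            ≤ Cardinal.prod (fun _ : T => (2 : Cardinal.{u}) ^ μ) :=
              Cardinal.prod_le_prod _ _ h2
          _ = (2 ^ μ) ^ #T := by simp
      have h4 : ((2 : Cardinal.{u}) ^ μ) ^ #T ≤ 2 ^ μ := by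
        calc ((2 : Cardinal.{u}) ^ μ) ^ #T = (2 ^ #T) ^ μ := by
              rw [← Cardinal.power_mul, ← Cardinal.power_mul, mul_comm]
          _ ≤ (2 ^ μ) ^ μ := Cardinal.power_le_power_right (pow_le_of_lt_least hT)
          _ = 2 ^ μ := by rw [← Cardinal.power_mul, Cardinal.mul_eq_self hμ]
      have h5 : #((least μ).ord.ToType → Bool) = 2 ^ least μ := by simp
      rw [← h5]
      exact (h1.trans h3).trans h4
    exact absurd (least_spec μ) (not_lt.mpr hle)

/-- The main theorem on colourings of branches. -/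
theorem main (hμ : ℵ₀ ≤ μ) (hlt : (2 : Cardinal.{u}) ^ μ < 2 ^ κ)
    (c : Branch κ → Branch κ → Ordinal.{u})
    (hsymm : ∀ x y, c x y = c y x)
    (hc : ∀ x y, x ≠ y → c x y < max (Delta x y) μ.ord) :
    ∃ Y : Set (Branch κ), Cardinal.lift.{u + 1} (least μ) ≤ #Y ∧ ∃ ν, Mono c ν Y := by
  classical
  have hle : least μ ≤ κ := least_le hlt
  have hμκ : μ < κ := (lt_least μ).trans_le hle
  have hκ : ℵ₀ ≤ κ := hμ.trans hμκ.le
  have hleo : (least μ).ord ≤ κ.ord := Cardinal.ord_le_ord.mpr hle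
  have hμl : μ.ord < (least μ).ord := Cardinal.ord_lt_ord.mpr (lt_least μ)
  have hω : Ordinal.omega0 ≤ μ.ord := by
    rw [← Cardinal.ord_aleph0]
    exact Cardinal.ord_le_ord.mpr hμ
  have hl0 : (0 : Ordinal.{u}) < (least μ).ord := (zero_le).trans_lt hμl
  let I := (least μ).ord.ToType
  let E : (I → Bool) → Branch κ := emb κ μ
  -- the first difference of two images
  have hEd : ∀ (x y : I → Bool) (d : I), x d ≠ y d →
      E x ≠ E y ∧ Delta (E x) (E y) ≤ 1 + ((Ordinal.ToType.toOrd d : Iio _) : Ordinal.{u}) := by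
    intro x y d hd
    let dd := Ordinal.ToType.toOrd d
    have h1 : (1 : Ordinal.{u}) + dd.1 < κ.ord :=
      one_add_lt hκ (lt_of_lt_of_le dd.2 hleo)
    have hdd : Ordinal.ToType.mk (⟨dd.1, dd.2⟩ : Iio (least μ).ord) = d := by
      have : (⟨dd.1, dd.2⟩ : Iio (least μ).ord) = Ordinal.ToType.mk.symm d := rfl
      rw [this]
      exact OrderIso.apply_symm_apply _ _
    have h2 : E x ⟨1 + dd.1, h1⟩ = x d := by
      have := emb_one_add (κ := κ) x dd.1 dd.2 h1
      rw [hdd] at this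
      exact this
    have h3 : E y ⟨1 + dd.1, h1⟩ = y d := by
      have := emb_one_add (κ := κ) y dd.1 dd.2 h1
      rw [hdd] at this
      exact this
    have h4 : E x ⟨1 + dd.1, h1⟩ ≠ E y ⟨1 + dd.1, h1⟩ := by rw [h2, h3]; exact hd
    exact ⟨fun h => h4 (by rw [h]), Delta_le_of_ne h1 h4⟩
  have hEinj : Function.Injective E := by
    intro x y hxy
    by_contra hne
    obtain ⟨d, hd⟩ := Function.ne_iff.mp hne
    exact (hEd x y d hd).1 hxy
  let c' : (I → Bool) → (I → Bool) → I := fun x y =>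
    if h : c (E x) (E y) < (least μ).ord then Ordinal.ToType.mk ⟨_, h⟩
    else Ordinal.ToType.mk ⟨0, hl0⟩
  have hbound : ∀ (x y : I → Bool) (d : I), x d ≠ y d →
      c (E x) (E y) < max ((Ordinal.ToType.toOrd d : Iio _) : Ordinal.{u}) μ.ord := by
    intro x y d hd
    obtain ⟨h1, h2⟩ := hEd x y d hd
    refine (hc _ _ h1).trans_le ?_
    refine max_le ?_ (le_max_right _ _)
    refine h2.trans ?_
    have h3 : (1 : Ordinal.{u}) + max ((Ordinal.ToType.toOrd d : Iio _) : Ordinal.{u}) μ.ord =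
        max ((Ordinal.ToType.toOrd d : Iio _) : Ordinal.{u}) μ.ord :=
      Ordinal.one_add_of_omega0_le (hω.trans (le_max_right _ _))
    rw [← h3]
    exact add_le_add_right (le_max_left _ _) 1
  have hlt' : ∀ (x y : I → Bool), x ≠ y → c (E x) (E y) < (least μ).ord := by
    intro x y hxy
    obtain ⟨d, hd⟩ := Function.ne_iff.mp hxy
    exact (hbound x y d hd).trans (max_lt (Ordinal.ToType.toOrd d).2 hμl)
  have hsymm' : ∀ x y, c' x y = c' y x := by
    intro x y
    simp only [c', hsymm (E x) (E y)]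
  have hc' : ∀ x y d, x d ≠ y d → (∀ i < d, x i = y i) →
      c' x y < max d (Ordinal.ToType.mk ⟨μ.ord, hμl⟩) := by
    intro x y d hd _
    have hxy : x ≠ y := fun h => hd (by rw [h])
    have h1 := hlt' x y hxy
    have h2 : c' x y = Ordinal.ToType.mk ⟨_, h1⟩ := dif_pos h1
    rw [h2]
    have h3 := hbound x y d hd
    have hdd : Ordinal.ToType.mk (Ordinal.ToType.toOrd d) = d :=
      OrderIso.apply_symm_apply _ _
    rcases lt_max_iff.mp h3 with h4 | h4
    · refine lt_max_of_lt_left ?_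
      rw [← hdd]
      exact (OrderIso.lt_iff_lt _).mpr (show (⟨_, h1⟩ : Iio (least μ).ord) < _ from h4)
    · refine lt_max_of_lt_right ?_
      exact (OrderIso.lt_iff_lt _).mpr (show (⟨_, h1⟩ : Iio (least μ).ord) < ⟨μ.ord, hμl⟩ from h4)
  obtain ⟨Y, hY, ν, hν⟩ := (ctx_least hμ).core c' hsymm' hc'
  refine ⟨E '' Y, ?_, ((Ordinal.ToType.toOrd ν : Iio _) : Ordinal.{u}), ?_⟩
  · have h1 := Cardinal.mk_image_eq_lift E Y hEinj
    rw [Cardinal.mk_ord_toType] at hY
    have h2 : Cardinal.lift.{u + 1} (least μ) ≤ Cardinal.lift.{u + 1} #Y :=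
      Cardinal.lift_le.mpr hY
    refine h2.trans ?_
    rw [← h1]
    exact (Cardinal.lift_id'.{u, u + 1} _).le
  · rintro _ ⟨x, hx, rfl⟩ _ ⟨y, hy, rfl⟩ hne
    have hxy : x ≠ y := fun h => hne (by rw [h])
    have h1 := hν x hx y hy hxy
    have h2 := hlt' x y hxy
    have h3 : c' x y = Ordinal.ToType.mk ⟨_, h2⟩ := dif_pos h2
    rw [h3] at h1
    rw [← h1]
    simp

/-- The bound for all exponents that do not change the power set. -/
theorem main' {lam : Cardinal.{u}} (hμ : ℵ₀ ≤ μ) (hlt : (2 : Cardinal.{u}) ^ μ < 2 ^ κ)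
    (hlam : ∀ τ < lam, (2 : Cardinal.{u}) ^ τ ≤ 2 ^ μ)
    (c : Branch κ → Branch κ → Ordinal.{u})
    (hsymm : ∀ x y, c x y = c y x)
    (hc : ∀ x y, x ≠ y → c x y < max (Delta x y) μ.ord) :
    ∃ Y : Set (Branch κ), Cardinal.lift.{u + 1} lam ≤ #Y ∧ ∃ ν, Mono c ν Y := by
  obtain ⟨Y, hY, ν, hν⟩ := main hμ hlt c hsymm hc
  refine ⟨Y, le_trans (Cardinal.lift_le.mpr ?_) hY, ν, hν⟩
  by_contra h
  push Not at h
  exact absurd (least_spec μ) (not_lt.mpr (hlam _ h))

end Pool.Agent.Y717.Reg
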