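import Mathlib
import Pool.Agent.H529R3.Delta

set_option autoImplicit false

/-!
# Colourings by two colours without monochromatic sets of size larger than `κ`

The classical construction: compare a well-order with the lexicographic order.
-/

open Cardinal Set

namespace Pool.Agent.Y717.Reg

open Pool.Agent.H529R3 (Mono Branch Delta Delta_symm Delta_spec eq_of_lt_Delta Delta_eq)

universe u

variable {κ : Cardinal.{u}}

/-- The lexicographic order. -/
def Lex (x y : Branch κ) : Prop :=
  ∃ h : Delta x y < κ.ord, x ⟨Delta x y, h⟩ = false ∧ y ⟨Delta x y, h⟩ = true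

theorem lex_ne {x y : Branch κ} (h : Lex x y) : x ≠ y := by
  rintro rfl
  obtain ⟨_, h1, h2⟩ := h
  rw [h1] at h2
  exact absurd h2 (by simp)

theorem lex_or {x y : Branch κ} (h : x ≠ y) : Lex x y ∨ Lex y x := by
  obtain ⟨h1, h2⟩ := Delta_spec h
  cases hx : x ⟨Delta x y, h1⟩
  · left
    refine ⟨h1, hx, ?_⟩
    rw [hx] at h2
    cases hy : y ⟨Delta x y, h1⟩
    · exact absurd hy.symm h2
    · rfl
  · right
    have h3 : Delta y x < κ.ord := by rw [Delta_symm]; exact h1
    have h4 : (⟨Delta y x, h3⟩ : Iio κ.ord) = ⟨Delta x y, h1⟩ := Subtype.ext (Delta_symm y x)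
    refine ⟨h3, ?_, ?_⟩
    · rw [h4]
      rw [hx] at h2
      cases hy : y ⟨Delta x y, h1⟩
      · rfl
      · exact absurd hy.symm h2
    · rw [h4]; exact hx

theorem lex_asymm {x y : Branch κ} (h : Lex x y) : ¬ Lex y x := by
  rintro ⟨h3, h4, h5⟩
  obtain ⟨h0, h1, h2⟩ := h
  have h6 : (⟨Delta y x, h3⟩ : Iio κ.ord) = ⟨Delta x y, h0⟩ := Subtype.ext (Delta_symm y x)
  rw [h6, h1] at h5
  exact absurd h5 (by simp)

theorem lex_lt {x y zx zy : Branch κ} {r : Ordinal.{u}} (hxy : Lex x y) (hx : Lex x zx)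
    (hdx : Delta x zx = r) (hy : Lex y zy) (hdy : Delta y zy = r) (hmin : ¬ Lex y zx) :
    Delta x y < r := by
  by_contra hcon
  push Not at hcon
  obtain ⟨h1, h2, h3⟩ := hx
  obtain ⟨h4, h5, h6⟩ := hy
  have hr : r < κ.ord := hdx ▸ h1
  have e1 : (⟨Delta x zx, h1⟩ : Iio κ.ord) = ⟨r, hr⟩ := Subtype.ext hdx
  have e2 : (⟨Delta y zy, h4⟩ : Iio κ.ord) = ⟨r, hr⟩ := Subtype.ext hdy
  rw [e1] at h2 h3
  rw [e2] at h5
  have h7 : r ≠ Delta x y := by
    intro h
    obtain ⟨h8, h9⟩ := Delta_spec (lex_ne hxy)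
    have e3 : (⟨Delta x y, h8⟩ : Iio κ.ord) = ⟨r, hr⟩ := Subtype.ext h.symm
    rw [e3, h2, h5] at h9
    exact h9 rfl
  have h8 : r < Delta x y := lt_of_le_of_ne hcon h7
  have h9 : Delta y zx = r := by
    apply Delta_eq hr
    · rw [h5, h3]; simp
    · intro j hj
      rw [← eq_of_lt_Delta (hj.trans hr) (hj.trans h8)]
      exact eq_of_lt_Delta (hj.trans hr) (hdx ▸ hj)
  refine hmin ⟨h9 ▸ hr, ?_, ?_⟩
  · have e3 : (⟨Delta y zx, h9 ▸ hr⟩ : Iio κ.ord) = ⟨r, hr⟩ := Subtype.ext h9
    rw [e3]; exact h5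
  · have e3 : (⟨Delta y zx, h9 ▸ hr⟩ : Iio κ.ord) = ⟨r, hr⟩ := Subtype.ext h9
    rw [e3]; exact h3

theorem card_le (hκ : ℵ₀ ≤ κ) : ∀ ρ : Ordinal.{u}, ρ ≤ κ.ord → ∀ Y : Set (Branch κ),
    (∀ x ∈ Y, ∀ y ∈ Y, x ≠ y → Delta x y < ρ) → (WellFounded fun a b : Y => Lex a.1 b.1) →
    #Y ≤ Cardinal.lift.{u + 1} κ := by
  intro ρ
  induction ρ using WellFoundedLT.induction with
  | _ ρ ih =>
    intro hρ Y hY wf
    classical
    have hκ' : ℵ₀ ≤ Cardinal.lift.{u + 1} κ := by
      rw [← Cardinal.lift_aleph0.{u + 1, u}]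
      exact Cardinal.lift_le.mpr hκ
    let S : Y → Set Y := fun y => {z | Lex y.1 z.1}
    let d : Y → Option (Iio ρ) := fun y => if h : (S y).Nonempty then
      some ⟨Delta y.1 (wf.min (S y) h).1, by
        have h1 : Lex y.1 (wf.min (S y) h).1 := wf.min_mem (S y) h
        exact hY _ y.2 _ (wf.min (S y) h).2 (lex_ne h1)⟩ else none
    have hd : ∀ (y : Y) (r : Iio ρ), d y = some r → ∃ z : Y, Lex y.1 z.1 ∧
        Delta y.1 z.1 = r.1 ∧ ∀ w : Y, Lex y.1 w.1 → ¬ Lex w.1 z.1 := by
      intro y r hr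
      by_cases h : (S y).Nonempty
      · simp only [d, dif_pos h, Option.some.injEq] at hr
        refine ⟨wf.min (S y) h, wf.min_mem (S y) h, congrArg Subtype.val hr, fun w hw => ?_⟩
        exact wf.not_lt_min (S y) hw
      · simp only [d, dif_neg h] at hr
        exact absurd hr (by simp)
    have hfib : ∀ o, #{y : Y // d y = o} ≤ Cardinal.lift.{u + 1} κ := by
      rintro (_ | ⟨r, hr⟩)
      · have hsub : Subsingleton {y : Y // d y = none} := by
          refine ⟨fun a b => ?_⟩
          by_contra hab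
          have hne : a.1.1 ≠ b.1.1 := fun h => hab (Subtype.ext (Subtype.ext h))
          have hnone : ∀ (a b : {y : Y // d y = none}), ¬ Lex a.1.1 b.1.1 := by
            intro a b h
            have h1 : (S a.1).Nonempty := ⟨b.1, h⟩
            have h2 := a.2
            simp only [d, dif_pos h1] at h2
            exact absurd h2 (by simp)
          rcases lex_or hne with h | h
          · exact hnone a b h
          · exact hnone b a h
        exact (Cardinal.le_one_iff_subsingleton.mpr hsub).trans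
          (Cardinal.one_le_aleph0.trans hκ')
      · let Z : Set (Branch κ) := {x | ∃ h : x ∈ Y, d ⟨x, h⟩ = some ⟨r, hr⟩}
        have hlt : ∀ x ∈ Z, ∀ y ∈ Z, Lex x y → Delta x y < r := by
          rintro x ⟨hx, hdx⟩ y ⟨hy, hdy⟩ hxy
          obtain ⟨zx, h1, h2, h3⟩ := hd _ _ hdx
          obtain ⟨zy, h4, h5, h6⟩ := hd _ _ hdy
          exact lex_lt hxy h1 h2 h4 h5 (h3 ⟨y, hy⟩ hxy)
        have hZ : #Z ≤ Cardinal.lift.{u + 1} κ := by
          apply ih r hr (le_trans (le_of_lt hr) hρ) Z
          · intro x hx y hy hxy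
            rcases lex_or hxy with h | h
            · exact hlt x hx y hy h
            · rw [Delta_symm]; exact hlt y hy x hx h
          · exact InvImage.wf (fun z : Z => (⟨z.1, z.2.choose⟩ : Y)) wf
        refine le_trans ?_ hZ
        refine Cardinal.mk_le_of_injective
          (f := fun y : {y : Y // d y = some ⟨r, hr⟩} => (⟨y.1.1, y.1.2, y.2⟩ : Z)) ?_
        intro a b hab
        exact Subtype.ext (Subtype.ext (congrArg (fun z : Z => z.1) hab))
    have h1 : #Y = Cardinal.sum fun o : Option (Iio ρ) => #{y : Y // d y = o} := by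
      rw [← Cardinal.mk_sigma]
      exact Cardinal.mk_congr (Equiv.sigmaFiberEquiv d).symm
    rw [h1]
    refine (Cardinal.sum_le_sum _ (fun _ => Cardinal.lift.{u + 1} κ) hfib).trans ?_
    rw [Cardinal.sum_const']
    have h2 : #(Option (Iio ρ)) ≤ Cardinal.lift.{u + 1} κ := by
      rw [Cardinal.mk_option]
      refine (add_le_add ?_ (Cardinal.one_le_aleph0.trans hκ')).trans
        (Cardinal.add_eq_self hκ').le
      rw [Cardinal.mk_Iio_ordinal]
      refine Cardinal.lift_le.mpr ?_
      have := Ordinal.card_le_card hρ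
      rwa [Cardinal.card_ord] at this
    exact (mul_le_mul' h2 le_rfl).trans (Cardinal.mul_eq_self hκ').le

/-- The complement of a branch. -/
def neg (x : Branch κ) : Branch κ := fun i => !(x i)

theorem Delta_neg (x y : Branch κ) : Delta (neg x) (neg y) = Delta x y := by
  unfold Delta neg
  congr 1
  ext i
  simp

theorem lex_neg {x y : Branch κ} (h : Lex (neg x) (neg y)) : Lex y x := by
  obtain ⟨h1, h2, h3⟩ := h
  have e0 : Delta y x = Delta (neg x) (neg y) := by rw [Delta_neg, Delta_symm]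
  have h4 : Delta y x < κ.ord := by rw [e0]; exact h1
  have e : (⟨Delta (neg x) (neg y), h1⟩ : Iio κ.ord) = ⟨Delta y x, h4⟩ := Subtype.ext e0.symm
  rw [e] at h2 h3
  unfold neg at h2 h3
  refine ⟨h4, ?_, ?_⟩
  · simpa using h3
  · simpa using h2

theorem neg_injective : Function.Injective (neg : Branch κ → Branch κ) := by
  intro x y h
  funext i
  have := congrFun h i
  simpa [neg] using this

/-- A colouring by two colours without monochromatic sets of size larger than `κ`. -/
theorem exists_sharp (hκ : ℵ₀ ≤ κ) : ∃ c : Branch κ → Branch κ → Ordinal.{u},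
    (∀ x y, c x y = c y x) ∧ (∀ x y, c x y < 2) ∧
    ∀ Y : Set (Branch κ), (∃ ν, Mono c ν Y) → #Y ≤ Cardinal.lift.{u + 1} κ := by
  classical
  let W : Branch κ → Branch κ → Prop := WellOrderingRel
  have hW : IsWellOrder (Branch κ) W := WellOrderingRel.isWellOrder
  let c : Branch κ → Branch κ → Ordinal.{u} := fun x y => if (W x y ↔ Lex x y) then 0 else 1
  have hWor : ∀ x y, x ≠ y → W x y ∨ W y x := fun x y hxy => by
    rcases trichotomous_of W x y with h | h | h
    · exact Or.inl h
    · exact absurd h hxy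
    · exact Or.inr h
  have hWas : ∀ x y, W x y → ¬ W y x := fun x y h => asymm_of W h
  have hiff : ∀ x y, x ≠ y → ((W x y ↔ Lex x y) ↔ (W y x ↔ Lex y x)) := by
    intro x y hxy
    have a1 := hWor x y hxy
    have a2 := hWas x y
    have a3 := hWas y x
    have a4 := lex_or hxy
    have a5 := lex_asymm (x := x) (y := y)
    have a6 := lex_asymm (x := y) (y := x)
    tauto
  have hmax : ∀ Y : Set (Branch κ), (∀ x ∈ Y, ∀ y ∈ Y, x ≠ y → Delta x y < κ.ord) :=
    fun Y x _ y _ hxy => (Delta_spec hxy).1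
  refine ⟨c, fun x y => ?_, fun x y => ?_, ?_⟩
  · by_cases hxy : x = y
    · rw [hxy]
    · simp only [c, hiff x y hxy]
  · simp only [c]
    split_ifs
    · exact zero_lt_two
    · exact one_lt_two
  · rintro Y ⟨ν, hν⟩
    by_cases h0 : ν = 0
    · apply card_le hκ κ.ord le_rfl Y (hmax Y)
      refine Subrelation.wf (r := fun a b : Y => W a.1 b.1) ?_ (InvImage.wf Subtype.val hW.wf)
      intro a b hab
      have h1 := hν a.1 a.2 b.1 b.2 (lex_ne hab)
      rw [h0] at h1
      by_contra h2
      have h3 : ¬ (W a.1 b.1 ↔ Lex a.1 b.1) := fun h => h2 (h.mpr hab)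
      simp only [c, if_neg h3] at h1
      exact one_ne_zero h1
    · have hc : #(neg '' Y) ≤ Cardinal.lift.{u + 1} κ := by
        apply card_le hκ κ.ord le_rfl _ (hmax _)
        have hpre : ∀ a : (neg '' Y : Set (Branch κ)), ∃ x, x ∈ Y ∧ neg x = a.1 := fun a => a.2
        choose g hg1 hg2 using hpre
        refine Subrelation.wf (r := fun a b : (neg '' Y : Set (Branch κ)) => W (g a) (g b)) ?_
          (InvImage.wf g hW.wf)
        intro a b hab
        have h1 : Lex (g b) (g a) := by
          apply lex_neg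
          rw [hg2, hg2]
          exact hab
        have h2 := hν _ (hg1 b) _ (hg1 a) (lex_ne h1)
        by_contra h3
        have h4 := hWor (g b) (g a) (lex_ne h1)
        have h5 : W (g b) (g a) := by tauto
        have h6 : (W (g b) (g a) ↔ Lex (g b) (g a)) := ⟨fun _ => h1, fun _ => h5⟩
        simp only [c, if_pos h6] at h2
        exact h0 h2.symm
      rwa [Cardinal.mk_image_eq neg_injective] at hc

end Pool.Agent.Y717.Reg
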